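import Pool.Agent.H970.RN.Basic

/-! # The scores and the vector fields of the next level (N components) -/

set_option autoImplicit false
set_option linter.unusedSectionVars false

noncomputable section

namespace Pool.Agent.H970.RN

open MvPolynomial MeasureTheory Pool.Agent.H5R2.ON Pool.Agent.H717R2.ON3 Pool.Agent.H983R2.ONJ
open Pool.Agent.Y13.QM Pool.Agent.H970.RG

section general

variable {N : ℕ} {V : Type} [Fintype V] [DecidableEq V]

/-- the nested form of the bilinear expression -/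
theorem QM_nest (J : V → MatN N V) (f : V → ℝ) {ψ : V → V → ℝ}
    (hψ : ∀ x z, ψ x z = ψ z x) :
    QM J (kap f ψ) = ∑ z, f z • (JM J (fun x => ψ x z) * J z - J z * JM J (fun x => ψ x z)) := by
  have h1 : ∑ x, ∑ z, (f z * ψ x z) • (J x * J z) =
      ∑ z, f z • (JM J (fun x => ψ x z) * J z) := by
    rw [Finset.sum_comm]
    refine Finset.sum_congr rfl fun z _ => ?_
    unfold JM
    rw [Finset.sum_mul, Finset.smul_sum]
    refine Finset.sum_congr rfl fun x _ => ?_
    rw [smul_mul_assoc, smul_smul]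
  have h2 : ∑ x, ∑ z, (f x * ψ x z) • (J x * J z) =
      ∑ z, f z • (J z * JM J (fun x => ψ x z)) := by
    refine Finset.sum_congr rfl fun x _ => ?_
    unfold JM
    rw [Finset.mul_sum, Finset.smul_sum]
    refine Finset.sum_congr rfl fun z _ => ?_
    rw [mul_smul_comm, smul_smul, hψ x z]
  unfold QM kap
  have h3 : ∀ x z, ((f z - f x) * ψ x z) • (J x * J z) =
      (f z * ψ x z) • (J x * J z) - (f x * ψ x z) • (J x * J z) := by
    intro x z
    rw [← sub_smul]
    congr 1
    ring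
  simp only [h3, Finset.sum_sub_distrib]
  rw [h1, h2, ← Finset.sum_sub_distrib]
  refine Finset.sum_congr rfl fun z _ => ?_
  rw [smul_sub]

theorem anti_iff {T : MatN N V} : (∀ i j, T i j = -T j i) ↔ T.transpose = -T := by
  refine ⟨fun h => ?_, fun h i j => ?_⟩
  · ext1 i j
    rw [Matrix.transpose_apply, Matrix.neg_apply]
    exact h j i
  · have h1 := congrFun (congrFun h j) i
    rw [Matrix.transpose_apply, Matrix.neg_apply] at h1
    exact h1

theorem QM_anti {J : V → MatN N V} (hJ : ∀ y i j, J y i j = -J y j i) {k : V → V → ℝ}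
    (hk : Anti k) (i j : Fin N) : QM J k i j = -QM J k j i := by
  have hT : ∀ y, (J y).transpose = -J y := fun y => anti_iff.1 (hJ y)
  refine anti_iff.2 ?_ i j
  have e1 : (QM J k).transpose = ∑ x, ∑ z, k x z • (J z * J x) := by
    unfold QM
    rw [Matrix.transpose_sum]
    refine Finset.sum_congr rfl fun x _ => ?_
    rw [Matrix.transpose_sum]
    refine Finset.sum_congr rfl fun z _ => ?_
    rw [Matrix.transpose_smul, Matrix.transpose_mul, hT, hT, neg_mul_neg]
  rw [e1, Finset.sum_comm]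
  unfold QM
  rw [← Finset.sum_neg_distrib]
  refine Finset.sum_congr rfl fun z _ => ?_
  rw [← Finset.sum_neg_distrib]
  refine Finset.sum_congr rfl fun x _ => ?_
  rw [hk x z, neg_smul]

theorem nJM_anti {J : V → MatN N V} (hJ : ∀ y i j, J y i j = -J y j i) (t : ℝ)
    {ψ : V → V → ℝ} (hψ : ∀ x z, ψ x z = ψ z x) (y : V) (i j : Fin N) :
    nJM J t ψ y i j = -nJM J t ψ y j i := by
  unfold nJM
  rw [Matrix.add_apply, Matrix.add_apply, Matrix.smul_apply, Matrix.smul_apply,
    Matrix.smul_apply, Matrix.smul_apply, hJ y i j, QM_anti hJ (kap_anti hψ) i j]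
  simp only [smul_neg]
  ring

theorem sum_nJM {J : V → MatN N V} (hJ : ∑ y, J y = 0) (t : ℝ) (ψ : V → V → ℝ) :
    ∑ y, nJM J t ψ y = 0 := by
  have h := JM_nJM J t ψ (fun _ => 1)
  rw [JM_one hJ, QM_zero J (kap_one ψ), smul_zero, smul_zero, add_zero] at h
  unfold JM at h
  simpa only [one_smul] using h

theorem sum_nbM (J : V → MatN N V) {b : V → Fin N → Fin N → DerN N V} (t : ℝ)
    (ψ : V → V → ℝ) (i j : Fin N) : ∑ y, nbM J b t ψ y i j = ∑ y, b y i j := by
  unfold nbM
  rw [Finset.sum_add_distrib, ← Finset.smul_sum]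
  have h : ∑ y : V, ∑ x, ∑ z, kap (Pi.single y 1) ψ x z • ∑ k, (J z k j • b x i k) = 0 := by
    rw [Finset.sum_comm]
    refine Finset.sum_eq_zero fun x _ => ?_
    rw [Finset.sum_comm]
    refine Finset.sum_eq_zero fun z _ => ?_
    rw [← Finset.sum_smul]
    have h1 := kap_sum (fun _ : V => 1) ψ x z
    simp only [one_mul] at h1
    rw [h1, kap_one, zero_smul]
  rw [h, smul_zero, add_zero]

theorem nbM_apply (J : V → MatN N V) (b : V → Fin N → Fin N → DerN N V) (t : ℝ)
    (ψ : V → V → ℝ) (y : V) (i j : Fin N) (F : AlgN N V) :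
    nbM J b t ψ y i j F = b y i j F + (t / ((N : ℝ) - 2)) •
      ∑ x, ∑ z, kap (Pi.single y 1) ψ x z • ∑ k, (J z k j * b x i k F) := by
  unfold nbM
  rw [Derivation.add_apply, Derivation.smul_apply, der_sumN]
  congr 2
  refine Finset.sum_congr rfl fun x _ => ?_
  rw [der_sumN]
  refine Finset.sum_congr rfl fun z _ => ?_
  rw [Derivation.smul_apply, der_sumN]
  rfl

end general

section good

variable {N L : ℕ} [NeZero L] {ι : Type} [Fintype ι] {G : Gr (Tor L) ι} {β : ℝ}
  {Λ : Finset (Tor L)} {W : WFunN N G β Λ} {J : Tor L → MatN N (Tor L)}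
  {b : Tor L → Fin N → Fin N → DerN N (Tor L)} {ρ l B : ℝ}

theorem sup_nJM (h : GoodN W J b ρ l B) {r : ℝ} (hρ : 0 ≤ ρ) (hr : 1 ≤ r) (hρr : 2 * ρ ≤ r)
    (t : ℝ) (y : Tor L) (i j : Fin N) :
    SupN {x | tnorm (x - y) ≤ 7 * r} (nJM J t (psi 4 r) y i j) := by
  have hJ : ∀ x, tnorm (x - y) ≤ 6 * r → ∀ i j,
      SupN {x | tnorm (x - y) ≤ 7 * r} (J x i j) := by
    intro x hx i j
    refine (h.sup x i j).mono fun w hw => ?_
    simp only [Set.mem_ofPred_eq] at hw ⊢
    have := tri3 w x y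
    linarith
  unfold nJM
  rw [Matrix.add_apply, Matrix.smul_apply, Matrix.smul_apply, QM_apply]
  refine SupN.add ((hJ y (by rw [sub_self, tnorm_zero]; linarith) i j).smul _) (SupN.smul ?_ _)
  refine SupN.sum _ _ fun x _ => SupN.sum _ _ fun z _ => ?_
  by_cases hk : kap (Pi.single y 1) (psi 4 r) x z = 0
  · rw [hk, zero_smul]
    exact SupN.zero
  · obtain ⟨h1, h2⟩ := kap_single_near hr hk
    exact (SupN.matmul (hJ x h1) (hJ z h2) i j).smul _

theorem loc_nbM (h : GoodN W J b ρ l B) {r : ℝ} (hρ : 0 ≤ ρ) (hr : 1 ≤ r) (hρr : 2 * ρ ≤ r)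
    (t : ℝ) (y : Tor L) (i j : Fin N) (F : AlgN N (Tor L)) (A : Set (Tor L)) (hF : LocN A F)
    (hA : ∀ x ∈ A, 7 * r < tnorm (x - y)) : nbM J b t (psi 4 r) y i j F = 0 := by
  have hb : ∀ x, tnorm (x - y) ≤ 6 * r → ∀ i j, b x i j F = 0 := by
    intro x hx i j
    refine h.loc x i j F A hF fun w hw => ?_
    have h1 := hA w hw
    have h2 := tri3 w x y
    linarith
  rw [nbM_apply, hb y (by rw [sub_self, tnorm_zero]; linarith) i j, zero_add]
  refine smul_eq_zero_of_right _ (Finset.sum_eq_zero fun x _ => Finset.sum_eq_zero fun z _ => ?_)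
  by_cases hk : kap (Pi.single y 1) (psi 4 r) x z = 0
  · rw [hk, zero_smul]
  · refine smul_eq_zero_of_right _ (Finset.sum_eq_zero fun k _ => ?_)
    rw [hb x (kap_single_near hr hk).1, mul_zero]

/-- the divergence part of the bilinear expression -/
theorem kap_divM (h : GoodN W J b ρ l B) {r : ℝ} (hρ : 0 ≤ ρ) (hr : 1 ≤ r) (hρr : 2 * ρ ≤ r)
    (f : Tor L → ℝ) (i j : Fin N) :
    ∑ x, ∑ z, kap f (psi 4 r) x z • ∑ k, b x i k (J z k j) =
      ((N : ℝ) - 2) • JM J f i j := by
  have h1 : ∀ x z, kap f (psi 4 r) x z • ∑ k, b x i k (J z k j) =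
      (f z - f x) • ∑ k, b x i k (J z k j) := by
    intro x z
    by_cases hxz : tnorm (x - z) ≤ 2 * ρ
    · unfold kap
      rw [psi_one hr (by linarith), mul_one]
    · push Not at hxz
      have h2 : ∑ k, b x i k (J z k j) = 0 := by
        refine Finset.sum_eq_zero fun k _ => ?_
        refine h.loc x _ _ _ {w | tnorm (w - z) ≤ ρ} (h.sup z _ _).loc fun w hw => ?_
        simp only [Set.mem_ofPred_eq] at hw
        have h3 := tri3 x w z
        rw [tnorm_sub_comm x w] at h3
        linarith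
      rw [h2, smul_zero, smul_zero]
  simp only [h1, sub_smul, Finset.sum_sub_distrib]
  have h2 : ∑ x, ∑ z, f z • ∑ k, b x i k (J z k j) = ((N : ℝ) - 2) • JM J f i j := by
    rw [Finset.sum_comm, JM_apply, Finset.smul_sum]
    refine Finset.sum_congr rfl fun z _ => ?_
    rw [← Finset.smul_sum, Finset.sum_comm]
    have e : ∀ k, ∑ x, b x i k (J z k j) = RR (fun _ => 1) i k (J z k j) := by
      intro k
      rw [← h.sumb i k, der_sumN]
    simp only [e]
    rw [div_row (h.cov z) (h.anti z), smul_comm]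
  have h3 : ∑ x, ∑ z, f x • ∑ k, b x i k (J z k j) = 0 := by
    refine Finset.sum_eq_zero fun x _ => ?_
    rw [← Finset.smul_sum, Finset.sum_comm]
    refine smul_eq_zero_of_right _ (Finset.sum_eq_zero fun k _ => ?_)
    rw [← map_sum]
    have e : ∑ z, J z k j = 0 := by
      have := congrFun (congrFun h.sumJ k) j
      rwa [Matrix.sum_apply, Matrix.zero_apply] at this
    rw [e, map_zero]
  rw [h2, h3, sub_zero, sub_smul]

theorem ibp_nbM (hN : 3 ≤ N) (h : GoodN W J b ρ l B) {r : ℝ} (hρ : 0 ≤ ρ) (hr : 1 ≤ r)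
    (hρr : 2 * ρ ≤ r)
    (t : ℝ) (y : Tor L) (hy : ∀ x, tnorm (x - y) ≤ 7 * r → x ∈ Λ) (i j : Fin N)
    (F : AlgN N (Tor L)) :
    W.E (nbM J b t (psi 4 r) y i j F) = W.E (nJM J t (psi 4 r) y i j * F) := by
  have hN2 : (N : ℝ) - 2 ≠ 0 := by
    have : (3 : ℝ) ≤ N := by exact_mod_cast hN
    intro hh
    linarith
  have hin : ∀ x, tnorm (x - y) ≤ 6 * r → ∀ w, tnorm (w - x) ≤ ρ → w ∈ Λ := by
    intro x hx w hw
    refine hy w ?_
    have := tri3 w x y
    linarith
  -- the bilinear expression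
  have h1 : W.E (QM J (kap (Pi.single y 1) (psi 4 r)) i j * F) =
      W.E (∑ x, ∑ z, kap (Pi.single y 1) (psi 4 r) x z • ∑ k, (J z k j * b x i k F)) +
        ((N : ℝ) - 2) * W.E (J y i j * F) := by
    have h2 : ∀ x z, W.E (kap (Pi.single y 1) (psi 4 r) x z • (J x * J z) i j * F) =
        W.E (kap (Pi.single y 1) (psi 4 r) x z • ∑ k, (J z k j * b x i k F)) +
        W.E (kap (Pi.single y 1) (psi 4 r) x z • (∑ k, b x i k (J z k j)) * F) := by
      intro x z
      by_cases hk : kap (Pi.single y 1) (psi 4 r) x z = 0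
      · rw [hk]
        simp only [zero_smul, zero_mul, map_zero, add_zero]
      · simp only [smul_mul_assoc, map_smul]
        rw [← smul_add, ← map_add]
        congr 1
        rw [Matrix.mul_apply, Finset.sum_mul, Finset.sum_mul, ← Finset.sum_add_distrib, map_sum,
          map_sum]
        refine Finset.sum_congr rfl fun k _ => ?_
        have h3 := h.ibp x (hin x (kap_single_near hr hk).1) i k (J z k j * F)
        rw [Derivation.leibniz, smul_eq_mul, smul_eq_mul] at h3
        rw [mul_assoc, ← h3]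
        congr 2
        ring
    have h4 : QM J (kap (Pi.single y 1) (psi 4 r)) i j * F =
        ∑ x, ∑ z, kap (Pi.single y 1) (psi 4 r) x z • (J x * J z) i j * F := by
      rw [QM_apply, Finset.sum_mul]
      exact Finset.sum_congr rfl fun x _ => Finset.sum_mul _ _ _
    have h5 := kap_divM h hρ hr hρr (Pi.single y 1) i j
    rw [JM_single] at h5
    have h7 : ∑ x, ∑ z, kap (Pi.single y 1) (psi 4 r) x z • (∑ k, b x i k (J z k j)) * F =
        ((N : ℝ) - 2) • (J y i j * F) := by
      rw [← smul_mul_assoc, ← h5, Finset.sum_mul]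
      exact Finset.sum_congr rfl fun x _ => (Finset.sum_mul _ _ _).symm
    rw [h4, map_sum]
    have h8 : ∀ x, W.E (∑ z, kap (Pi.single y 1) (psi 4 r) x z • (J x * J z) i j * F) =
        W.E (∑ z, kap (Pi.single y 1) (psi 4 r) x z • ∑ k, (J z k j * b x i k F)) +
        W.E (∑ z, kap (Pi.single y 1) (psi 4 r) x z • (∑ k, b x i k (J z k j)) * F) := by
      intro x
      rw [map_sum, map_sum, map_sum, ← Finset.sum_add_distrib]
      exact Finset.sum_congr rfl fun z _ => h2 x z
    simp only [h8, Finset.sum_add_distrib]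
    rw [← map_sum, ← map_sum, h7, map_smul, smul_eq_mul]
  rw [nbM_apply, map_add, map_smul]
  unfold nJM
  rw [Matrix.add_apply, Matrix.smul_apply, Matrix.smul_apply, add_mul, smul_mul_assoc,
    smul_mul_assoc, map_add, map_smul, map_smul, h1]
  rw [h.ibp y (fun x hx => hy x (by linarith)) i j F]
  simp only [smul_eq_mul]
  field_simp
  ring

end good

theorem alg : S_alg := by
  intro N hN L _ ι _ G β Λ W J b ρ l B r t h hρ hρr hr
  refine ⟨fun y i j => nJM_anti h.anti t (psi_symm 4 r) y i j, sum_nJM h.sumJ t _,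
    fun i j => ?_, fun y => ?_, fun y i j => ?_, ?_, ?_⟩
  · rw [sum_nbM]
    exact h.sumb i j
  · exact covM_nJM h.cov t (psi 4 r) y
  · exact sup_nJM h hρ hr hρr t y i j
  · intro y i j F A hF hA
    exact loc_nbM h hρ hr hρr t y i j F A hF hA
  · intro y hy i j F
    exact ibp_nbM hN h hρ hr hρr t y hy i j F

end Pool.Agent.H970.RN
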