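import Pool.Agent.H970.RN.Defs
import Pool.Agent.H970.RG.Alg

/-! # Algebra of the matrix scores: locality, linearity, covariance -/

set_option autoImplicit false
set_option linter.unusedSectionVars false

noncomputable section

namespace Pool.Agent.H970.RN

open MvPolynomial MeasureTheory Pool.Agent.H5R2.ON Pool.Agent.H717R2.ON3 Pool.Agent.H983R2.ONJ
open Pool.Agent.Y13.QM Pool.Agent.H970.RG

section supp

variable {N : ℕ} {V : Type}

theorem SupN.mono {A B : Set V} {F : AlgN N V} (h : SupN A F) (hAB : A ⊆ B) : SupN B F := by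
  unfold SupN at h ⊢
  have h1 : {v : V × Fin N | v.1 ∈ A} ⊆ {v : V × Fin N | v.1 ∈ B} := fun v hv => hAB hv
  exact MvPolynomial.supported_mono h1 h

theorem SupN.add {A : Set V} {F H : AlgN N V} (hF : SupN A F) (hH : SupN A H) :
    SupN A (F + H) := Subalgebra.add_mem _ hF hH

theorem SupN.sub {A : Set V} {F H : AlgN N V} (hF : SupN A F) (hH : SupN A H) :
    SupN A (F - H) := Subalgebra.sub_mem _ hF hH

theorem SupN.neg {A : Set V} {F : AlgN N V} (hF : SupN A F) : SupN A (-F) :=
  Subalgebra.neg_mem _ hF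

theorem SupN.mul {A : Set V} {F H : AlgN N V} (hF : SupN A F) (hH : SupN A H) :
    SupN A (F * H) := Subalgebra.mul_mem _ hF hH

theorem SupN.smul {A : Set V} {F : AlgN N V} (hF : SupN A F) (c : ℝ) : SupN A (c • F) :=
  Subalgebra.smul_mem _ hF c

theorem SupN.zero {A : Set V} : SupN A (0 : AlgN N V) := Subalgebra.zero_mem _

theorem SupN.X {A : Set V} {x : V} (hx : x ∈ A) (i : Fin N) :
    SupN A (MvPolynomial.X (x, i) : AlgN N V) := by
  unfold SupN
  rw [MvPolynomial.X_mem_supported]
  exact hx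

theorem SupN.sum {α : Type*} {A : Set V} (I : Finset α) (F : α → AlgN N V)
    (hF : ∀ a ∈ I, SupN A (F a)) : SupN A (∑ a ∈ I, F a) :=
  Subalgebra.sum_mem _ hF

/-- products of matrices of local polynomials -/
theorem SupN.matmul {A : Set V} {P Q : MatN N V} (hP : ∀ i j, SupN A (P i j))
    (hQ : ∀ i j, SupN A (Q i j)) (i j : Fin N) : SupN A ((P * Q) i j) := by
  rw [Matrix.mul_apply]
  exact SupN.sum _ _ fun k _ => (hP i k).mul (hQ k j)

variable [DecidableEq V]

theorem DN_X (x : V) (i j : Fin N) (v : V × Fin N) :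
    DN x i j (MvPolynomial.X v) = if v.1 = x then
      ((if v.2 = j then MvPolynomial.X (x, i) else 0) -
        (if v.2 = i then MvPolynomial.X (x, j) else 0)) else 0 := by
  unfold DN
  rw [mkDerivation_X]

theorem DN_X_ne {x y : V} (h : y ≠ x) (i j k : Fin N) :
    DN x i j (MvPolynomial.X (y, k) : AlgN N V) = 0 := by
  rw [DN_X, if_neg h]

theorem DN_X_self (x : V) (i j k : Fin N) :
    DN x i j (MvPolynomial.X (x, k) : AlgN N V) =
      (if k = j then MvPolynomial.X (x, i) else 0) -
        (if k = i then MvPolynomial.X (x, j) else 0) := by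
  rw [DN_X, if_pos rfl]

theorem SupN.loc {A : Set V} {F : AlgN N V} (h : SupN A F) : LocN A F := by
  intro x hx i j
  have h1 : DN x i j F = (0 : DerN N V) F := by
    refine MvPolynomial.derivation_eqOn_supported (s := {v : V × Fin N | v.1 ∈ A}) ?_ h
    intro v hv
    simp only [Function.comp]
    have hne : v.1 ≠ x := fun he => hx (he ▸ hv)
    obtain ⟨y, k⟩ := v
    rw [DN_X_ne hne]
    rfl
  rw [h1]
  rfl

theorem LocN.mono {A B : Set V} {F : AlgN N V} (h : LocN A F) (hAB : A ⊆ B) : LocN B F :=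
  fun x hx => h x fun hA => hx (hAB hA)

theorem LocN.mul {A : Set V} {F H : AlgN N V} (hF : LocN A F) (hH : LocN A H) :
    LocN A (F * H) := by
  intro x hx i j
  rw [Derivation.leibniz, hF x hx i j, hH x hx i j, smul_zero, smul_zero, add_zero]

theorem LocN.add {A : Set V} {F H : AlgN N V} (hF : LocN A F) (hH : LocN A H) :
    LocN A (F + H) := by
  intro x hx i j
  rw [map_add, hF x hx i j, hH x hx i j, add_zero]

theorem LocN.neg {A : Set V} {F : AlgN N V} (hF : LocN A F) : LocN A (-F) := by
  intro x hx i j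
  rw [map_neg, hF x hx i j, neg_zero]

theorem LocN.sub {A : Set V} {F H : AlgN N V} (hF : LocN A F) (hH : LocN A H) :
    LocN A (F - H) := by
  rw [sub_eq_add_neg]
  exact hF.add hH.neg

theorem LocN.smul {A : Set V} {F : AlgN N V} (hF : LocN A F) (c : ℝ) : LocN A (c • F) := by
  intro x hx i j
  rw [Derivation.map_smul, hF x hx i j, smul_zero]

theorem LocN.pow {A : Set V} {F : AlgN N V} (hF : LocN A F) (n : ℕ) : LocN A (F ^ n) := by
  intro x hx i j
  rw [Derivation.leibniz_pow, hF x hx i j, smul_zero, smul_zero]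

theorem LocN.one {A : Set V} : LocN A (1 : AlgN N V) := by
  intro x _ i j
  exact Derivation.map_one_eq_zero _

theorem LocN.zero {A : Set V} : LocN A (0 : AlgN N V) := by
  intro x _ i j
  exact map_zero _

theorem LocN.sum {α : Type*} {A : Set V} (I : Finset α) (F : α → AlgN N V)
    (hF : ∀ a ∈ I, LocN A (F a)) : LocN A (∑ a ∈ I, F a) := by
  intro x hx i j
  rw [map_sum]
  exact Finset.sum_eq_zero fun a ha => hF a ha x hx i j

/-- products of matrices of local polynomials -/
theorem LocN.matmul {A : Set V} {P Q : MatN N V} (hP : ∀ i j, LocN A (P i j))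
    (hQ : ∀ i j, LocN A (Q i j)) (i j : Fin N) : LocN A ((P * Q) i j) := by
  rw [Matrix.mul_apply]
  exact LocN.sum _ _ fun k _ => (hP i k).mul (hQ k j)

theorem NNN.sq_mul {H : AlgN N V} (hH : NNN H) (F : AlgN N V) : NNN (F ^ 2 * H) := by
  intro σ hσ
  rw [map_mul, map_pow]
  exact mul_nonneg (sq_nonneg _) (hH σ hσ)

theorem NNN.sum {α : Type*} (I : Finset α) (F : α → AlgN N V)
    (hF : ∀ a ∈ I, NNN (F a)) : NNN (∑ a ∈ I, F a) := by
  intro σ hσ
  rw [map_sum]
  exact Finset.sum_nonneg fun a ha => hF a ha σ hσ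

theorem NNN.one : NNN (1 : AlgN N V) := by
  intro σ _
  rw [map_one]
  exact zero_le_one

end supp

section general

variable {N : ℕ} {V : Type} [Fintype V] [DecidableEq V]

theorem der_sumN {α : Type*} (s : Finset α) (d : α → DerN N V) (F : AlgN N V) :
    (∑ a ∈ s, d a) F = ∑ a ∈ s, d a F := by
  classical
  induction s using Finset.induction_on with
  | empty => simp
  | insert a s ha ih =>
    rw [Finset.sum_insert ha, Finset.sum_insert ha, Derivation.add_apply, ih]

theorem RR_apply (b : V → ℝ) (i j : Fin N) (F : AlgN N V) :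
    RR b i j F = ∑ x, b x • DN x i j F := by
  unfold RR
  rw [der_sumN]
  rfl

theorem RR_X (b : V → ℝ) (i j : Fin N) (x : V) (k : Fin N) :
    RR b i j (X (x, k) : AlgN N V) =
      b x • ((if k = j then X (x, i) else 0) - (if k = i then X (x, j) else 0)) := by
  rw [RR_apply, Finset.sum_eq_single x]
  · rw [DN_X_self]
  · intro y _ hy
    rw [DN_X_ne hy.symm, smul_zero]
  · intro h
    exact absurd (Finset.mem_univ x) h

theorem RR_one_X (i j : Fin N) (x : V) (k : Fin N) :
    RR (fun _ => 1) i j (X (x, k) : AlgN N V) =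
      (if k = j then X (x, i) else 0) - (if k = i then X (x, j) else 0) := by
  rw [RR_X, one_smul]

/-- rotations outside the support do not act -/
theorem RR_kill {b : V → ℝ} {A : Set V} {F : AlgN N V} (hF : LocN A F)
    (hb : ∀ x ∈ A, b x = 0) (i j : Fin N) : RR b i j F = 0 := by
  rw [RR_apply]
  refine Finset.sum_eq_zero fun x _ => ?_
  by_cases hx : x ∈ A
  · rw [hb x hx, zero_smul]
  · rw [hF x hx i j, smul_zero]

theorem BM_apply (b : V → Fin N → Fin N → DerN N V) (f : V → ℝ) (i j : Fin N)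
    (F : AlgN N V) : BM b f i j F = ∑ y, f y • b y i j F := by
  unfold BM
  rw [der_sumN]
  rfl

theorem JM_apply (J : V → MatN N V) (f : V → ℝ) (i j : Fin N) :
    JM J f i j = ∑ y, f y • J y i j := by
  unfold JM
  rw [Matrix.sum_apply]
  rfl

theorem QM_apply (J : V → MatN N V) (k : V → V → ℝ) (i j : Fin N) :
    QM J k i j = ∑ x, ∑ z, k x z • (J x * J z) i j := by
  unfold QM
  rw [Matrix.sum_apply]
  refine Finset.sum_congr rfl fun x _ => ?_
  rw [Matrix.sum_apply]
  rfl

theorem ScN_apply {ι : Type} [Fintype ι] (G : Gr V ι) (β : ℝ) (b : V → ℝ) (i j : Fin N) :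
    ScN G β b i j = ∑ e, (β * grad G b e) • (curN G e i j : AlgN N V) := by
  unfold ScN
  rw [Matrix.sum_apply]
  rfl

theorem ScN_eq_sum {ι : Type} [Fintype ι] (G : Gr V ι) (β : ℝ) (b : V → ℝ) :
    (ScN G β b : MatN N V) = ∑ x, b x • S1N G β x := by
  unfold S1N ScN
  simp only [Finset.smul_sum, smul_smul]
  rw [Finset.sum_comm]
  refine Finset.sum_congr rfl fun e _ => ?_
  rw [← Finset.sum_smul]
  congr 1
  unfold grad
  have h : ∀ w : V, ∑ x, b x * (Pi.single x (1 : ℝ) : V → ℝ) w = b w := by
    intro w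
    simp only [Pi.single_apply, mul_ite, mul_one, mul_zero]
    rw [Finset.sum_ite_eq]
    simp
  have h2 : ∀ x, b x * (β * ((Pi.single x (1 : ℝ) : V → ℝ) (G.t e) -
      (Pi.single x (1 : ℝ) : V → ℝ) (G.s e))) =
      β * (b x * (Pi.single x (1 : ℝ) : V → ℝ) (G.t e)) -
        β * (b x * (Pi.single x (1 : ℝ) : V → ℝ) (G.s e)) := by
    intro x
    ring
  simp only [h2]
  rw [Finset.sum_sub_distrib, ← Finset.mul_sum, ← Finset.mul_sum, h, h]
  ring

theorem kap_sumN (f : V → ℝ) (ψ : V → V → ℝ) (x z : V) :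
    ∑ y, f y * kap (Pi.single y 1) ψ x z = kap f ψ x z := kap_sum f ψ x z

theorem QM_sum (J : V → MatN N V) (f : V → ℝ) (ψ : V → V → ℝ) :
    ∑ y, f y • QM J (kap (Pi.single y 1) ψ) = QM J (kap f ψ) := by
  unfold QM
  simp only [Finset.smul_sum, smul_smul]
  rw [Finset.sum_comm]
  refine Finset.sum_congr rfl fun x _ => ?_
  rw [Finset.sum_comm]
  refine Finset.sum_congr rfl fun z _ => ?_
  rw [← Finset.sum_smul, kap_sum]

theorem JM_nJM (J : V → MatN N V) (t : ℝ) (ψ : V → V → ℝ) (f : V → ℝ) :
    JM (nJM J t ψ) f = (1 - t) • JM J f + (t / ((N : ℝ) - 2)) • QM J (kap f ψ) := by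
  rw [← QM_sum]
  unfold JM nJM
  simp only [smul_add, Finset.sum_add_distrib, Finset.smul_sum]
  congr 1
  · refine Finset.sum_congr rfl fun y _ => ?_
    rw [smul_comm]
  · refine Finset.sum_congr rfl fun y _ => ?_
    rw [smul_comm]

theorem JM_one {J : V → MatN N V} (hJ : ∑ y, J y = 0) : JM J (fun _ => 1) = 0 := by
  unfold JM
  simp only [one_smul]
  exact hJ

theorem JM_single (J : V → MatN N V) (y : V) : JM J (Pi.single y 1) = J y := by
  unfold JM
  rw [Finset.sum_eq_single y]
  · rw [Pi.single_eq_same, one_smul]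
  · intro z _ hz
    rw [Pi.single_eq_of_ne hz, zero_smul]
  · intro hh
    exact absurd (Finset.mem_univ y) hh

theorem QM_zero (J : V → MatN N V) {k : V → V → ℝ} (hk : ∀ x z, k x z = 0) :
    QM J k = 0 := by
  unfold QM
  refine Finset.sum_eq_zero fun x _ => Finset.sum_eq_zero fun z _ => ?_
  rw [hk, zero_smul]

/-! ### Covariance -/

theorem EM_transpose (a b : Fin N) : (EM a b : MatN N V).transpose = -EM a b := by
  unfold EM
  rw [Matrix.transpose_sub, Matrix.transpose_single, Matrix.transpose_single, neg_sub]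

theorem map_mulN (d : DerN N V) (P Q : MatN N V) :
    (P * Q).map d = P.map d * Q + P * Q.map d := by
  ext1 i j
  simp only [Matrix.map_apply, Matrix.mul_apply, Matrix.add_apply, map_sum, Derivation.leibniz,
    smul_eq_mul]
  rw [← Finset.sum_add_distrib]
  refine Finset.sum_congr rfl fun k _ => ?_
  ring

theorem covM_mul {P Q : MatN N V} (hP : CovM P) (hQ : CovM Q) : CovM (P * Q) := by
  intro a b
  rw [map_mulN, hP a b, hQ a b]
  noncomm_ring

theorem covM_transpose {P : MatN N V} (hP : CovM P) : CovM P.transpose := by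
  intro a b
  have h : P.transpose.map (RR (fun _ => 1) a b) = (P.map (RR (fun _ => 1) a b)).transpose := rfl
  rw [h, hP a b, Matrix.transpose_sub, Matrix.transpose_mul,
    Matrix.transpose_mul, EM_transpose]
  noncomm_ring

theorem covM_add {P Q : MatN N V} (hP : CovM P) (hQ : CovM Q) : CovM (P + Q) := by
  intro a b
  have h : (P + Q).map (RR (fun _ => 1) a b) =
      P.map (RR (fun _ => 1) a b) + Q.map (RR (fun _ => 1) a b) := by
    ext1 i j
    simp only [Matrix.map_apply, Matrix.add_apply, map_add]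
  rw [h, hP a b, hQ a b]
  noncomm_ring

theorem covM_smul {P : MatN N V} (hP : CovM P) (c : ℝ) : CovM (c • P) := by
  intro a b
  have h : (c • P).map (RR (fun _ => 1) a b) = c • P.map (RR (fun _ => 1) a b) := by
    ext1 i j
    simp only [Matrix.map_apply, Matrix.smul_apply, Derivation.map_smul]
  rw [h, hP a b, smul_sub, Matrix.smul_mul, Matrix.mul_smul]

theorem covM_sub {P Q : MatN N V} (hP : CovM P) (hQ : CovM Q) : CovM (P - Q) := by
  have h := covM_add hP (covM_smul hQ (-1))
  rwa [neg_one_smul, ← sub_eq_add_neg] at h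

theorem covM_zero : CovM (0 : MatN N V) := by
  intro a b
  have h : (0 : MatN N V).map (RR (fun _ => 1) a b) = 0 := by
    ext1 i j
    simp only [Matrix.map_apply, Matrix.zero_apply, map_zero]
  rw [h, Matrix.zero_mul, Matrix.mul_zero, sub_zero]

theorem covM_sum {α : Type*} (s : Finset α) {P : α → MatN N V} (h : ∀ a ∈ s, CovM (P a)) :
    CovM (∑ a ∈ s, P a) := by
  classical
  induction s using Finset.induction_on with
  | empty =>
    rw [Finset.sum_empty]
    exact covM_zero
  | insert a s ha ih =>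
    rw [Finset.sum_insert ha]
    exact covM_add (h a (Finset.mem_insert_self a s))
      (ih fun x hx => h x (Finset.mem_insert_of_mem hx))

theorem covM_JM {J : V → MatN N V} (hJ : ∀ y, CovM (J y)) (f : V → ℝ) : CovM (JM J f) := by
  unfold JM
  exact covM_sum _ fun y _ => covM_smul (hJ y) _

theorem covM_QM {J : V → MatN N V} (hJ : ∀ y, CovM (J y)) (k : V → V → ℝ) :
    CovM (QM J k) := by
  unfold QM
  exact covM_sum _ fun x _ => covM_sum _ fun z _ => covM_smul (covM_mul (hJ x) (hJ z)) _

theorem covM_nJM {J : V → MatN N V} (hJ : ∀ y, CovM (J y)) (t : ℝ) (ψ : V → V → ℝ) (y : V) :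
    CovM (nJM J t ψ y) := by
  unfold nJM
  exact covM_add (covM_smul (hJ y) _) (covM_smul (covM_QM hJ _) _)

theorem mul_EM (T : MatN N V) (a b i j : Fin N) :
    (T * EM a b : MatN N V) i j = (if j = b then T i a else 0) - (if j = a then T i b else 0) := by
  unfold EM
  rw [Matrix.mul_sub, Matrix.sub_apply]
  congr 1
  · rw [Matrix.mul_apply]
    split_ifs with h
    · subst h
      rw [Finset.sum_eq_single a]
      · rw [Matrix.single_apply_same, mul_one]
      · intro k _ hk
        rw [Matrix.single_apply_of_ne _ _ _ _ _ (fun hh => hk hh.1.symm), mul_zero]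
      · intro hh
        exact absurd (Finset.mem_univ a) hh
    · refine Finset.sum_eq_zero fun k _ => ?_
      rw [Matrix.single_apply_of_ne _ _ _ _ _ (fun hh => h hh.2.symm), mul_zero]
  · rw [Matrix.mul_apply]
    split_ifs with h
    · subst h
      rw [Finset.sum_eq_single b]
      · rw [Matrix.single_apply_same, mul_one]
      · intro k _ hk
        rw [Matrix.single_apply_of_ne _ _ _ _ _ (fun hh => hk hh.1.symm), mul_zero]
      · intro hh
        exact absurd (Finset.mem_univ b) hh
    · refine Finset.sum_eq_zero fun k _ => ?_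
      rw [Matrix.single_apply_of_ne _ _ _ _ _ (fun hh => h hh.2.symm), mul_zero]

theorem EM_mul (T : MatN N V) (a b i j : Fin N) :
    (EM a b * T : MatN N V) i j = (if i = a then T b j else 0) - (if i = b then T a j else 0) := by
  have h := mul_EM T.transpose a b j i
  have h2 : T.transpose * EM a b = -(EM a b * T).transpose := by
    rw [Matrix.transpose_mul, EM_transpose, Matrix.mul_neg, neg_neg]
  rw [h2, Matrix.neg_apply, Matrix.transpose_apply, neg_eq_iff_eq_neg] at h
  rw [h]
  simp only [Matrix.transpose_apply]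
  ring

/-- covariance in components -/
theorem CovM.apply {T : MatN N V} (hT : CovM T) (a b i j : Fin N) :
    RR (fun _ => 1) a b (T i j) =
      ((if j = b then T i a else 0) - (if j = a then T i b else 0)) -
      ((if i = a then T b j else 0) - (if i = b then T a j else 0)) := by
  have h := congrFun (congrFun (hT a b) i) j
  rw [Matrix.map_apply, Matrix.sub_apply, mul_EM, EM_mul] at h
  exact h

theorem covM_iff {T : MatN N V} : CovM T ↔ ∀ a b i j, RR (fun _ => 1) a b (T i j) =
      ((if j = b then T i a else 0) - (if j = a then T i b else 0)) -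
      ((if i = a then T b j else 0) - (if i = b then T a j else 0)) := by
  refine ⟨fun h a b i j => h.apply a b i j, fun h a b => ?_⟩
  ext1 i j
  rw [Matrix.map_apply, Matrix.sub_apply, mul_EM, EM_mul, h]

/-- the divergence of a covariant matrix vanishes -/
theorem div_mat {T : MatN N V} (hT : CovM T) :
    ∑ i, ∑ j, RR (fun _ => 1) i j (T i j) = 0 := by
  have h : ∀ i j, RR (fun _ => 1) i j (T i j) = T i i - T j j := by
    intro i j
    rw [hT.apply]
    by_cases hij : i = j
    · subst hij
      simp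
    · rw [if_pos rfl, if_neg (fun hh => hij hh.symm), if_pos rfl, if_neg hij]
      ring
  simp only [h, Finset.sum_sub_distrib]
  rw [Finset.sum_comm, sub_self]

/-- contraction of the rotations with an antisymmetric covariant matrix -/
theorem div_row {T : MatN N V} (hT : CovM T) (ha : ∀ i j, T i j = -T j i) (i j : Fin N) :
    ∑ k, RR (fun _ => 1) i k (T k j) = ((N : ℝ) - 2) • T i j := by
  have hd : ∀ i, T i i = 0 := by
    intro i
    have h1 := ha i i
    have h2 : (2 : ℝ) • T i i = 0 := by
      rw [two_smul]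
      nth_rewrite 2 [h1]
      ring
    exact (smul_eq_zero.1 h2).resolve_left (by norm_num)
  have h : ∀ k, RR (fun _ => 1) i k (T k j) =
      (if j = k then T j i else 0) - (if k = i then T i j else 0) + T i j := by
    intro k
    rw [hT.apply]
    clear ha
    rcases eq_or_ne j k with h1 | h1
    · subst h1
      rcases eq_or_ne j i with h3 | h3
      · subst h3
        simp [hd]
      · simp [h3, hd]
    · rcases eq_or_ne j i with h3 | h3
      · subst h3
        simp [h1, Ne.symm h1, hd]
      · rcases eq_or_ne k i with h4 | h4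
        · subst h4
          simp [h1]
        · simp [h1, h3, h4]
  simp only [h]
  rw [Finset.sum_add_distrib, Finset.sum_sub_distrib, Finset.sum_ite_eq, Finset.sum_ite_eq',
    Finset.sum_const, Finset.card_univ, Fintype.card_fin, if_pos (Finset.mem_univ _),
    if_pos (Finset.mem_univ _), ha j i, sub_smul, ← Nat.cast_smul_eq_nsmul ℝ, two_smul]
  ring

end general

section wfun

variable {N : ℕ} {V ι : Type} [Fintype V] [DecidableEq V] [Fintype ι] {G : Gr V ι} {β : ℝ}
  {Λ : Finset V} (W : WFunN N G β Λ)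

namespace WFunN

theorem mono {F H : AlgN N V} (h : ∀ σ : V × Fin N → ℝ,
    (∀ x, ∑ i, σ (x, i) ^ 2 ≤ 1) → eval σ F ≤ eval σ H) : W.E F ≤ W.E H := by
  have h1 := W.pos (H - F) (fun σ hσ => by
    rw [map_sub]
    linarith [h σ hσ])
  rw [map_sub] at h1
  linarith

theorem sq_nonneg (F : AlgN N V) : 0 ≤ W.E (F ^ 2) := by
  refine W.pos _ (fun σ _ => ?_)
  rw [map_pow]
  positivity

theorem sq_mul_nonneg (F : AlgN N V) {H : AlgN N V} (hH : NNN H) : 0 ≤ W.E (F ^ 2 * H) :=
  W.pos _ (hH.sq_mul F)

theorem ibpR {b : V → ℝ} (hb : ∀ x, x ∉ Λ → b x = 0) (i j : Fin N) (F : AlgN N V) :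
    W.E (RR b i j F) = W.E (ScN G β b i j * F) := by
  rw [RR_apply, ScN_eq_sum, Matrix.sum_apply, Finset.sum_mul, map_sum, map_sum]
  refine Finset.sum_congr rfl (fun x _ => ?_)
  rw [Matrix.smul_apply, smul_mul_assoc, map_smul, map_smul]
  by_cases hx : x ∈ Λ
  · rw [W.ibp x hx]
  · rw [hb x hx, zero_smul, zero_smul]

end WFunN

/-- the scalar product of two vectors of length at most one -/
theorem inner_le_oneN {σ : V × Fin N → ℝ} (hσ : ∀ x, ∑ i, σ (x, i) ^ 2 ≤ 1) (x y : V) :
    ∑ i, σ (x, i) * σ (y, i) ≤ 1 := by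
  have h : ∀ i, σ (x, i) * σ (y, i) ≤ (σ (x, i) ^ 2 + σ (y, i) ^ 2) / 2 := by
    intro i
    nlinarith [_root_.sq_nonneg (σ (x, i) - σ (y, i))]
  have h2 := Finset.sum_le_sum fun i (_ : i ∈ (Finset.univ : Finset (Fin N))) => h i
  rw [← Finset.sum_div, Finset.sum_add_distrib] at h2
  linarith [hσ x, hσ y]

end wfun

section good

variable {N L : ℕ} [NeZero L] {ι : Type} [Fintype ι] {G : Gr (Tor L) ι} {β : ℝ}
  {Λ : Finset (Tor L)} {W : WFunN N G β Λ} {J : Tor L → MatN N (Tor L)}
  {b : Tor L → Fin N → Fin N → DerN N (Tor L)} {ρ l B : ℝ}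

/-- integration by parts for smeared fields -/
theorem GoodN.ibpS (h : GoodN W J b ρ l B) {f : Tor L → ℝ}
    (hf : ∀ y, f y ≠ 0 → ∀ x, tnorm (x - y) ≤ ρ → x ∈ Λ) (i j : Fin N) (F : AlgN N (Tor L)) :
    W.E (BM b f i j F) = W.E (JM J f i j * F) := by
  rw [BM_apply, JM_apply, map_sum, Finset.sum_mul, map_sum]
  refine Finset.sum_congr rfl fun y _ => ?_
  rw [map_smul, smul_mul_assoc, map_smul]
  by_cases hy : f y = 0
  · rw [hy, zero_smul, zero_smul]
  · rw [h.ibp y (hf y hy) i j F]

/-- smeared fields are rigid rotations where the weight is one -/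
theorem GoodN.BM_rigid (h : GoodN W J b ρ l B) {f : Tor L → ℝ} {F : AlgN N (Tor L)}
    {A : Set (Tor L)} (hF : LocN A F) (hf : ∀ y, f y ≠ 1 → ∀ x ∈ A, ρ < tnorm (x - y))
    (i j : Fin N) : BM b f i j F = RR (fun _ => 1) i j F := by
  rw [BM_apply, ← h.sumb i j, der_sumN]
  refine Finset.sum_congr rfl fun y _ => ?_
  by_cases hy : f y = 1
  · rw [hy, one_smul]
  · rw [h.loc y i j F A hF (hf y hy), smul_zero]

theorem GoodN.BM_kill (h : GoodN W J b ρ l B) {f : Tor L → ℝ} {F : AlgN N (Tor L)}
    {A : Set (Tor L)} (hF : LocN A F) (hf : ∀ y, f y ≠ 0 → ∀ x ∈ A, ρ < tnorm (x - y))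
    (i j : Fin N) : BM b f i j F = 0 := by
  rw [BM_apply]
  refine Finset.sum_eq_zero fun y _ => ?_
  by_cases hy : f y = 0
  · rw [hy, zero_smul]
  · rw [h.loc y i j F A hF (hf y hy), smul_zero]

/-- the smeared score only depends on the places where the weight is not one -/
theorem GoodN.JM_sub_one (h : GoodN W J b ρ l B) (f : Tor L → ℝ) :
    JM J f = JM J (fun x => f x - 1) := by
  unfold JM
  simp only [sub_smul, one_smul, Finset.sum_sub_distrib]
  rw [h.sumJ, sub_zero]

theorem GoodN.supS (h : GoodN W J b ρ l B) {f : Tor L → ℝ} {A : Set (Tor L)}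
    (hf : ∀ y, f y ≠ 0 → ∀ x, tnorm (x - y) ≤ ρ → x ∈ A) (i j : Fin N) :
    SupN A (JM J f i j) := by
  rw [JM_apply]
  refine SupN.sum _ _ fun y _ => ?_
  by_cases hy : f y = 0
  · rw [hy, zero_smul]
    exact SupN.zero
  · exact ((h.sup y i j).mono fun x hx => hf y hy x hx).smul _

end good

end Pool.Agent.H970.RN
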