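import Pool.Agent.H970.RG.Defs

/-!
# Renormalisation of the scores of the two-dimensional O(N) models, all N components

The algebra of polynomials in all the `N` components of the spins; the scores are antisymmetric
matrices with entries in this algebra. All constants are uniform in `N`.
-/

set_option autoImplicit false

noncomputable section

namespace Pool.Agent.H970.RN

open MvPolynomial MeasureTheory Pool.Agent.H5R2.ON Pool.Agent.H717R2.ON3 Pool.Agent.H983R2.ONJ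
open Pool.Agent.Y13.QM Pool.Agent.H970.RG

/-- polynomials in the `N` components of the spins -/
abbrev AlgN (N : ℕ) (V : Type) : Type := MvPolynomial (V × Fin N) ℝ

/-- matrices with entries in the algebra -/
abbrev MatN (N : ℕ) (V : Type) : Type := Matrix (Fin N) (Fin N) (AlgN N V)

/-- derivations of the algebra -/
abbrev DerN (N : ℕ) (V : Type) : Type := Derivation ℝ (AlgN N V) (AlgN N V)

/-- polynomials in the spins at the sites of `A` -/
def SupN {N : ℕ} {V : Type} (A : Set V) (F : AlgN N V) : Prop :=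
  F ∈ MvPolynomial.supported ℝ {v : V × Fin N | v.1 ∈ A}

/-- nonnegative on all configurations of vectors of length at most one -/
def NNN {N : ℕ} {V : Type} (F : AlgN N V) : Prop :=
  ∀ σ : V × Fin N → ℝ, (∀ x, ∑ i, σ (x, i) ^ 2 ≤ 1) → 0 ≤ eval σ F

section general

variable {N : ℕ} {V : Type}

/-- rotation of the spin at `x` in the plane `(i, j)`: `σ^j ↦ σ^i`, `σ^i ↦ -σ^j` -/
def DN [DecidableEq V] (x : V) (i j : Fin N) : DerN N V :=
  mkDerivation ℝ fun v : V × Fin N =>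
    if v.1 = x then
      ((if v.2 = j then X (x, i) else 0) - (if v.2 = i then X (x, j) else 0))
    else 0

/-- `F` is not affected by rotations of the spins outside `A`. -/
def LocN [DecidableEq V] (A : Set V) (F : AlgN N V) : Prop :=
  ∀ x, x ∉ A → ∀ i j, DN x i j F = 0

/-- the current `σ_s^i σ_t^j - σ_s^j σ_t^i` through the edge `e` -/
def curN {ι : Type} (G : Gr V ι) (e : ι) : MatN N V := fun i j =>
  X (G.s e, i) * X (G.t e, j) - X (G.s e, j) * X (G.t e, i)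

/-- the scores of the rotation field `b` -/
def ScN {ι : Type} [Fintype ι] (G : Gr V ι) (β : ℝ) (b : V → ℝ) : MatN N V :=
  ∑ e, (β * grad G b e) • curN G e

/-- the scores of the rotations of the spin at `x` -/
def S1N {ι : Type} [DecidableEq V] [Fintype ι] (G : Gr V ι) (β : ℝ) (x : V) : MatN N V :=
  ScN G β (Pi.single x 1)

/-- the rotation field `b`, as a derivation -/
def RR [Fintype V] [DecidableEq V] (b : V → ℝ) (i j : Fin N) : DerN N V := ∑ x, b x • DN x i j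

/-- Gibbs functionals on the algebra: normalised, positive, and integration by parts at the sites
of `Λ`. -/
structure WFunN {ι : Type} [DecidableEq V] [Fintype ι] (N : ℕ) (G : Gr V ι) (β : ℝ)
    (Λ : Finset V) where
  /-- the expectation -/
  E : AlgN N V →ₗ[ℝ] ℝ
  one : E 1 = 1
  pos : ∀ F : AlgN N V, NNN F → 0 ≤ E F
  ibp : ∀ x ∈ Λ, ∀ (i j : Fin N) (F : AlgN N V), E (DN x i j F) = E (S1N G β x i j * F)

/-- the generator of the rotations in the plane `(a, b)`, as a matrix -/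
def EM (a b : Fin N) : MatN N V := Matrix.single a b 1 - Matrix.single b a 1

/-- covariant matrices -/
def CovM [Fintype V] [DecidableEq V] (T : MatN N V) : Prop :=
  ∀ a b, T.map (RR (fun _ => 1) a b) = T * EM a b - EM a b * T

variable [Fintype V] [DecidableEq V]

/-- smeared score -/
def JM (J : V → MatN N V) (f : V → ℝ) : MatN N V := ∑ y, f y • J y

/-- smeared vector field -/
def BM (b : V → Fin N → Fin N → DerN N V) (f : V → ℝ) (i j : Fin N) : DerN N V :=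
  ∑ y, f y • b y i j

/-- bilinear combination of the scores with kernel `k` -/
def QM (J : V → MatN N V) (k : V → V → ℝ) : MatN N V := ∑ x, ∑ z, k x z • (J x * J z)

/-- the scores of the next level -/
def nJM (J : V → MatN N V) (t : ℝ) (ψ : V → V → ℝ) (y : V) : MatN N V :=
  (1 - t) • J y + (t / ((N : ℝ) - 2)) • QM J (kap (Pi.single y 1) ψ)

/-- the vector fields of the next level -/
def nbM (J : V → MatN N V) (b : V → Fin N → Fin N → DerN N V) (t : ℝ)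
    (ψ : V → V → ℝ) (y : V) (i j : Fin N) : DerN N V :=
  b y i j + (t / ((N : ℝ) - 2)) •
    ∑ x, ∑ z, kap (Pi.single y 1) ψ x z • ∑ k, (J z k j • b x i k)

end general

/-- A level of the renormalisation: scores `J`, vector fields `b`, radius of locality `ρ`, minimal
scale `l`, bound `B (N - 2)²` for the second moments. -/
structure GoodN {N L : ℕ} [NeZero L] {ι : Type} [Fintype ι] {G : Gr (Tor L) ι} {β : ℝ}
    {Λ : Finset (Tor L)} (W : WFunN N G β Λ) (J : Tor L → MatN N (Tor L))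
    (b : Tor L → Fin N → Fin N → DerN N (Tor L)) (ρ l B : ℝ) : Prop where
  anti : ∀ y i j, J y i j = -J y j i
  sumJ : ∑ y, J y = 0
  sumb : ∀ i j, ∑ y, b y i j = RR (fun _ => 1) i j
  cov : ∀ y, CovM (J y)
  sup : ∀ y i j, SupN {x | tnorm (x - y) ≤ ρ} (J y i j)
  loc : ∀ (y : Tor L) (i j : Fin N) (F : AlgN N (Tor L)) (A : Set (Tor L)), LocN A F →
    (∀ x ∈ A, ρ < tnorm (x - y)) → b y i j F = 0
  ibp : ∀ y : Tor L, (∀ x, tnorm (x - y) ≤ ρ → x ∈ Λ) → ∀ (i j : Fin N) (F : AlgN N (Tor L)),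
    W.E (b y i j F) = W.E (J y i j * F)
  mom : ∀ r : ℝ, l ≤ r → ∀ a : Tor L, (∀ x, tnorm (x - a) ≤ 2 * r → x ∈ Λ) →
    ∀ (s : ℝ) (f : Tor L → ℝ), 0 ≤ s → (∀ x, f x ≠ 0 → tnorm (x - a) ≤ r) →
      (∀ x y, |f x - f y| ≤ s / r * tnorm (x - y)) →
      ∀ H : AlgN N (Tor L), LocN {x | 2 * r < tnorm (x - a)} H → NNN H →
        ∑ i, ∑ j, W.E (JM J f i j ^ 2 * H) ≤ s ^ 2 * (B * ((N : ℝ) - 2) ^ 2) * W.E H

/-- the evaluation point given by all the components of a configuration -/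
def ptN {N L : ℕ} (S : Conf N L) : Tor L × Fin N → ℝ := fun v => cc v.2 (S v.1)

/-! ## The statements to be proved -/

/-- level zero -/
def S_zero : Prop := ∃ C : ℝ, 0 < C ∧ ∀ (N : ℕ), 3 ≤ N → ∀ (L : ℕ) [NeZero L] {ι : Type}
  [Fintype ι] (G : Gr (Tor L) ι) (β ρ K : ℝ), Nice G β ρ K → 1 ≤ ρ → 0 ≤ K →
  ∀ (Λ : Finset (Tor L)) (W : WFunN N G β Λ),
    GoodN W (fun y => S1N G β y) (fun y i j => DN y i j) ρ ρ (C * (K / N))

/-- the scores and the vector fields of the next level, without the moment bound -/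
def S_alg : Prop := ∀ (N : ℕ), 3 ≤ N → ∀ (L : ℕ) [NeZero L] {ι : Type} [Fintype ι]
  (G : Gr (Tor L) ι) (β : ℝ)
  (Λ : Finset (Tor L)) (W : WFunN N G β Λ) (J : Tor L → MatN N (Tor L))
  (b : Tor L → Fin N → Fin N → DerN N (Tor L)) (ρ l B r t : ℝ),
  GoodN W J b ρ l B → 0 ≤ ρ → 2 * ρ ≤ r → 1 ≤ r →
  (∀ y i j, nJM J t (psi 4 r) y i j = -nJM J t (psi 4 r) y j i) ∧
  (∑ y, nJM J t (psi 4 r) y = 0) ∧
  (∀ i j, ∑ y, nbM J b t (psi 4 r) y i j = RR (fun _ => 1) i j) ∧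
  (∀ y, CovM (nJM J t (psi 4 r) y)) ∧
  (∀ y i j, SupN {x | tnorm (x - y) ≤ 7 * r} (nJM J t (psi 4 r) y i j)) ∧
  (∀ (y : Tor L) (i j : Fin N) (F : AlgN N (Tor L)) (A : Set (Tor L)), LocN A F →
    (∀ x ∈ A, 7 * r < tnorm (x - y)) → nbM J b t (psi 4 r) y i j F = 0) ∧
  (∀ y : Tor L, (∀ x, tnorm (x - y) ≤ 7 * r → x ∈ Λ) → ∀ (i j : Fin N) (F : AlgN N (Tor L)),
    W.E (nbM J b t (psi 4 r) y i j F) = W.E (nJM J t (psi 4 r) y i j * F))

/-- orthogonality: `Y` is a family of covariant matrices of range `q` -/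
def S_orth : Prop := ∀ (N : ℕ), 3 ≤ N → ∀ (L : ℕ) [NeZero L] {ι : Type} [Fintype ι]
  (G : Gr (Tor L) ι) (β : ℝ)
  (Λ : Finset (Tor L)) (W : WFunN N G β Λ) (J : Tor L → MatN N (Tor L))
  (b : Tor L → Fin N → Fin N → DerN N (Tor L)) (ρ l B r m q R' : ℝ),
  GoodN W J b ρ l B → 0 ≤ ρ → 1 ≤ r → 0 ≤ q → 2 * (q + ρ) ≤ (m - 2) * r → ρ ≤ q →
  ∀ (Y : Tor L → MatN N (Tor L)), (∀ y, CovM (Y y)) →
  (∀ y i j, SupN {x | tnorm (x - y) ≤ q} (Y y i j)) →
  ∀ (a : Tor L) (f : Tor L → ℝ), (∀ x, f x ≠ 0 → tnorm (x - a) ≤ R') →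
  (∀ x, tnorm (x - a) ≤ R' + (m + 2) * r + ρ → x ∈ Λ) →
  ∀ H : AlgN N (Tor L), LocN {x | R' + (m + 2) * r + ρ < tnorm (x - a)} H →
  ∑ i, ∑ j, W.E (JM Y f i j * QM J (kap f (psi m r)) i j * H) = 0

/-- the difference of the bilinear expressions with the cut-offs `4 r` and `16 r`; the constant
does not depend on `N` -/
def S_diff : Prop := ∃ C : ℝ, 4 ≤ C ∧ ∀ (N : ℕ), 3 ≤ N → ∀ (L : ℕ) [NeZero L] {ι : Type}
  [Fintype ι] (G : Gr (Tor L) ι) (β : ℝ) (Λ : Finset (Tor L)) (W : WFunN N G β Λ)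
  (J : Tor L → MatN N (Tor L))
  (b : Tor L → Fin N → Fin N → DerN N (Tor L)) (ρ l B r : ℝ),
  GoodN W J b ρ l B → 0 ≤ ρ → 2 * ρ ≤ r → l ≤ r → 1 ≤ r → 0 ≤ B → 2 * r < L →
  ∀ (R' s : ℝ), 20 * r ≤ R' → 0 ≤ s → ∀ a : Tor L, (∀ x, tnorm (x - a) ≤ 2 * R' → x ∈ Λ) →
    ∀ f : Tor L → ℝ, (∀ x, f x ≠ 0 → tnorm (x - a) ≤ R') →
      (∀ x y, |f x - f y| ≤ s / R' * tnorm (x - y)) →
      ∀ H : AlgN N (Tor L), LocN {x | 2 * R' < tnorm (x - a)} H → NNN H →
        ∑ i, ∑ j, W.E ((QM J (kap f (psi 16 r)) i j - QM J (kap f (psi 4 r)) i j) ^ 2 * H) ≤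
          s ^ 2 * (C * (B * ((N : ℝ) - 2) ^ 2) ^ 2) * W.E H

/-- the second moments of the next level -/
def S_mom : Prop := ∃ C : ℝ, 4 ≤ C ∧ ∀ (N : ℕ), 3 ≤ N → ∀ (L : ℕ) [NeZero L] {ι : Type}
  [Fintype ι] (G : Gr (Tor L) ι) (β : ℝ) (Λ : Finset (Tor L)) (W : WFunN N G β Λ)
  (J : Tor L → MatN N (Tor L))
  (b : Tor L → Fin N → Fin N → DerN N (Tor L)) (ρ l B r : ℝ),
  GoodN W J b ρ l B → 0 ≤ ρ → 2 * ρ ≤ r → l ≤ r → 1 ≤ r → 0 ≤ B → 2 * r < L →
  GoodN W (nJM J (1 / (1 + C * B)) (psi 4 r)) (nbM J b (1 / (1 + C * B)) (psi 4 r)) (7 * r)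
    (20 * r) (C * B ^ 2 / (1 + C * B))

/-- the main bound: the influence of the boundary is doubly exponentially small in `n` -/
def S_main : Prop := ∃ C : ℝ, 1 ≤ C ∧ ∀ (N : ℕ), 3 ≤ N → ∀ K : ℝ, 0 ≤ K → ∀ (n : ℕ) (R : ℝ),
  Real.exp (C * (1 + K / N)) * 400 ^ n ≤ R → ∀ (L : ℕ) [NeZero L], 2 * R < L →
    ∀ {ι : Type} [Fintype ι]
    (G : Gr (Tor L) ι) (β ρ : ℝ), Nice G β ρ K → 1 ≤ ρ → ρ ≤ √R → ∀ (p : Tor L)
    (W : WFunN N G β (ball p R)) (i : Fin N), |W.E (X (p, i))| ≤ (1 / 2) ^ (2 ^ n)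

/-- the finite volume Gibbs states of a multigraph are Gibbs functionals -/
def S_gib : Prop := ∀ (N : ℕ), N ≠ 0 → ∀ (L : ℕ) [NeZero L] {ι : Type} [Fintype ι]
  (G : Gr (Tor L) ι) (β : ℝ) (Λ : Finset (Tor L)) (η : Conf N L),
  ∃ W : WFunN N G β Λ, ∀ F : AlgN N (Tor L),
    W.E F = gH (fun S => β * enG G S) Λ η (fun S => eval (ptN S) F)

/-- the influence of the boundary for general couplings -/
def S_inf : Prop := ∀ a : ℝ, 0 < a → ∃ C : ℝ, 1 ≤ C ∧ ∀ A : ℝ, 0 ≤ A → ∀ N : ℕ, 3 ≤ N →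
  ∀ (n : ℕ) (R : ℝ), Real.exp (C * (1 + A / N)) * 400 ^ n ≤ R →
    MBJ N A a R ((1 / 2) ^ (2 ^ n) +
      (Real.exp (C * (1 + A) * R ^ 2 * Real.exp (-(a / 2) * √R)) - 1))

/-- decay of the correlations on the tori -/
def S_fin : Prop := ∀ a : ℝ, 0 < a → ∃ C : ℝ, 1 ≤ C ∧ ∀ A : ℝ, 0 ≤ A → ∀ N : ℕ, 3 ≤ N →
    ∀ (L : ℕ) [NeZero L] (c : Tor L × Tor L → ℝ), ExpC A a c → ∀ (x y : Tor L),
      (∫ S : Conf N L, inner ℝ (S x : EuclideanSpace ℝ (Fin N)) (S y) * Real.exp (pS c S)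
        ∂(prior N L)) / (∫ S : Conf N L, Real.exp (pS c S) ∂(prior N L)) ≤ Real.exp 2 *
        Real.exp (-Real.exp (-(C * (1 + (A / N + Real.log (1 + Real.log N))))) * tnorm (x - y))

end Pool.Agent.H970.RN
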