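import Pool.Agent.H970.RN.Orth

/-! # The second moments of the next level (N components) -/

set_option autoImplicit false
set_option linter.unusedSectionVars false
set_option linter.unusedVariables false

noncomputable section

namespace Pool.Agent.H970.RN

open MvPolynomial MeasureTheory Pool.Agent.H5R2.ON Pool.Agent.H717R2.ON3 Pool.Agent.H983R2.ONJ
open Pool.Agent.Y13.QM Pool.Agent.H970.RG

theorem mom (hd : S_diff) : S_mom := by
  obtain ⟨C, hC, hdiff⟩ := hd
  refine ⟨C, hC, ?_⟩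
  intro N hN L _ ι _ G β Λ W J b ρ l B r h hρ hρr hlr hr hB hL
  obtain ⟨a0, a1, a2, a3, a4, a5, a6⟩ :=
    alg N hN L G β Λ W J b ρ l B r (1 / (1 + C * B)) h hρ hρr hr
  refine ⟨a0, a1, a2, a3, a4, a5, a6, ?_⟩
  intro R' hR' a hΛ s f hs hf hlip H hH hNN
  have hC0 : 0 < C := by linarith
  have hCB : 0 ≤ C * B := mul_nonneg hC0.le hB
  obtain ⟨t, ht⟩ : ∃ t : ℝ, t = 1 / (1 + C * B) := ⟨_, rfl⟩
  rw [← ht]
  obtain ⟨M, hM⟩ : ∃ M : ℝ, M = (N : ℝ) - 2 := ⟨_, rfl⟩
  have hM0 : 0 < M := by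
    have : (3 : ℝ) ≤ N := by exact_mod_cast hN
    rw [hM]
    linarith
  have hEH : 0 ≤ W.E H := W.pos H hNN
  have hE2 : ∀ F : AlgN N (Tor L), 0 ≤ W.E (F ^ 2 * H) := fun F => W.sq_mul_nonneg F hNN
  -- the three sums
  have h1 : ∑ i, ∑ j, W.E (JM J f i j ^ 2 * H) ≤ s ^ 2 * (B * M ^ 2) * W.E H := by
    rw [hM]
    exact h.mom R' (by linarith) a hΛ s f hs hf hlip H hH hNN
  have h2 : ∑ i, ∑ j, W.E (JM J f i j * QM J (kap f (psi 4 r)) i j * H) = 0 := by
    refine orth N hN L G β Λ W J b ρ l B r 4 ρ R' h hρ hr hρ (by linarith) le_rfl J h.cov h.sup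
      a f hf (fun x hx => hΛ x (by linarith)) H (LocN.mono hH fun x hx => ?_)
    simp only [Set.mem_ofPred_eq] at hx ⊢
    linarith
  have h3 : ∑ i, ∑ j, W.E (QM J (kap f (psi 4 r)) i j * QM J (kap f (psi 16 r)) i j * H) = 0 := by
    have hY : QM J (kap f (psi 4 r)) = JM (fun v => JM J (fun x => psi 4 r x v) * J v -
        J v * JM J (fun x => psi 4 r x v)) f := QM_nest J f (psi_symm 4 r)
    rw [hY]
    refine orth N hN L G β Λ W J b ρ l B r 16 (6 * r + ρ) R' h hρ hr (by linarith) (by linarith)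
      (by linarith) (fun v => JM J (fun x => psi 4 r x v) * J v -
        J v * JM J (fun x => psi 4 r x v))
      (fun v => covM_sub (covM_mul (covM_JM h.cov _) (h.cov v))
        (covM_mul (h.cov v) (covM_JM h.cov _))) (fun v i j => ?_) a f hf
      (fun x hx => hΛ x (by linarith)) H (LocN.mono hH fun x hx => ?_)
    · have e1 : ∀ i j, SupN {x | tnorm (x - v) ≤ 6 * r + ρ}
          (JM J (fun x => psi 4 r x v) i j) := by
        intro i j
        refine h.supS (fun y hy x hx => ?_) i j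
        have h4 := psi_supp hr hy
        have h5 := tri3 x y v
        simp only [Set.mem_ofPred_eq]
        linarith
      have e2 : ∀ i j, SupN {x | tnorm (x - v) ≤ 6 * r + ρ} (J v i j) := by
        intro i j
        refine (h.sup v i j).mono fun x hx => ?_
        simp only [Set.mem_ofPred_eq] at hx ⊢
        linarith
      rw [Matrix.sub_apply]
      exact (SupN.matmul e1 e2 i j).sub (SupN.matmul e2 e1 i j)
    · simp only [Set.mem_ofPred_eq] at hx ⊢
      linarith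
  have h4 : ∑ i, ∑ j, W.E ((QM J (kap f (psi 16 r)) i j - QM J (kap f (psi 4 r)) i j) ^ 2 * H) ≤
      s ^ 2 * (C * (B * M ^ 2) ^ 2) * W.E H := by
    rw [hM]
    exact hdiff N hN L G β Λ W J b ρ l B r h hρ hρr hlr hr hB hL R' s hR' hs a hΛ f hf hlip H hH
      hNN
  have h5 : ∑ i, ∑ j, W.E (QM J (kap f (psi 4 r)) i j ^ 2 * H) ≤
      s ^ 2 * (C * (B * M ^ 2) ^ 2) * W.E H := by
    refine le_trans ?_ h4
    have e : ∀ i j, W.E ((QM J (kap f (psi 16 r)) i j - QM J (kap f (psi 4 r)) i j) ^ 2 * H) =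
        W.E (QM J (kap f (psi 16 r)) i j ^ 2 * H) + W.E (QM J (kap f (psi 4 r)) i j ^ 2 * H) -
          2 * W.E (QM J (kap f (psi 4 r)) i j * QM J (kap f (psi 16 r)) i j * H) := by
      intro i j
      have e' : (QM J (kap f (psi 16 r)) i j - QM J (kap f (psi 4 r)) i j) ^ 2 * H =
          QM J (kap f (psi 16 r)) i j ^ 2 * H + QM J (kap f (psi 4 r)) i j ^ 2 * H -
            (2 : ℝ) • (QM J (kap f (psi 4 r)) i j * QM J (kap f (psi 16 r)) i j * H) := by
        rw [two_smul]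
        ring
      rw [e', map_sub, map_add, map_smul, smul_eq_mul]
    have e2 : ∑ i, ∑ j,
        W.E ((QM J (kap f (psi 16 r)) i j - QM J (kap f (psi 4 r)) i j) ^ 2 * H) =
        ∑ i, ∑ j, W.E (QM J (kap f (psi 16 r)) i j ^ 2 * H) +
        ∑ i, ∑ j, W.E (QM J (kap f (psi 4 r)) i j ^ 2 * H) -
          2 * ∑ i, ∑ j, W.E (QM J (kap f (psi 4 r)) i j * QM J (kap f (psi 16 r)) i j * H) := by
      rw [Finset.mul_sum, ← Finset.sum_add_distrib, ← Finset.sum_sub_distrib]
      refine Finset.sum_congr rfl fun i _ => ?_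
      rw [Finset.mul_sum, ← Finset.sum_add_distrib, ← Finset.sum_sub_distrib]
      exact Finset.sum_congr rfl fun j _ => e i j
    rw [e2, h3]
    have := Finset.sum_nonneg fun i (_ : i ∈ (Finset.univ : Finset (Fin N))) =>
      Finset.sum_nonneg fun j (_ : j ∈ (Finset.univ : Finset (Fin N))) =>
        hE2 (QM J (kap f (psi 16 r)) i j)
    linarith
  -- the expansion
  have h6 : ∑ i, ∑ j, W.E (JM (nJM J t (psi 4 r)) f i j ^ 2 * H) =
      (1 - t) ^ 2 * ∑ i, ∑ j, W.E (JM J f i j ^ 2 * H) +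
        2 * (t / M) * (1 - t) * ∑ i, ∑ j, W.E (JM J f i j * QM J (kap f (psi 4 r)) i j * H) +
        (t / M) ^ 2 * ∑ i, ∑ j, W.E (QM J (kap f (psi 4 r)) i j ^ 2 * H) := by
    rw [Finset.mul_sum, Finset.mul_sum, Finset.mul_sum, ← Finset.sum_add_distrib,
      ← Finset.sum_add_distrib]
    refine Finset.sum_congr rfl fun i _ => ?_
    rw [Finset.mul_sum, Finset.mul_sum, Finset.mul_sum, ← Finset.sum_add_distrib,
      ← Finset.sum_add_distrib]
    refine Finset.sum_congr rfl fun j _ => ?_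
    rw [JM_nJM, Matrix.add_apply, Matrix.smul_apply, Matrix.smul_apply, ← hM]
    have e : ((1 - t) • JM J f i j + (t / M) • QM J (kap f (psi 4 r)) i j) ^ 2 * H =
        ((1 - t) ^ 2) • (JM J f i j ^ 2 * H) +
          (2 * (t / M) * (1 - t)) • (JM J f i j * QM J (kap f (psi 4 r)) i j * H) +
          ((t / M) ^ 2) • (QM J (kap f (psi 4 r)) i j ^ 2 * H) := by
      generalize t / M = u
      simp only [smul_eq_C_mul, map_sub, map_mul, map_pow, map_one]
      have : (MvPolynomial.C (2 : ℝ) : AlgN N (Tor L)) = 2 := by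
        rw [map_ofNat]
      rw [this]
      ring
    rw [e, map_add, map_add, map_smul, map_smul, map_smul]
    simp only [smul_eq_mul]
  rw [h6, h2, mul_zero, add_zero, ← hM]
  have ht0 : 0 ≤ t := by rw [ht]; positivity
  have hs2 : 0 ≤ s ^ 2 := sq_nonneg s
  calc (1 - t) ^ 2 * ∑ i, ∑ j, W.E (JM J f i j ^ 2 * H) +
        (t / M) ^ 2 * ∑ i, ∑ j, W.E (QM J (kap f (psi 4 r)) i j ^ 2 * H)
      ≤ (1 - t) ^ 2 * (s ^ 2 * (B * M ^ 2) * W.E H) +
        (t / M) ^ 2 * (s ^ 2 * (C * (B * M ^ 2) ^ 2) * W.E H) := by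
        gcongr
    _ = s ^ 2 * (((1 - t) ^ 2 * B + t ^ 2 * (C * B ^ 2)) * M ^ 2) * W.E H := by
        field_simp
    _ = s ^ 2 * (C * B ^ 2 / (1 + C * B) * M ^ 2) * W.E H := by
        have e : (1 - t) ^ 2 * B + t ^ 2 * (C * B ^ 2) = C * B ^ 2 / (1 + C * B) := by
          rw [ht]
          field_simp
          ring
        rw [e]

end Pool.Agent.H970.RN
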