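import Pool.Agent.H970.RN.Alg

/-! # Orthogonality (N components) -/

set_option autoImplicit false
set_option linter.unusedSectionVars false
set_option linter.unusedVariables false

noncomputable section

namespace Pool.Agent.H970.RN

open MvPolynomial MeasureTheory Pool.Agent.H5R2.ON Pool.Agent.H717R2.ON3 Pool.Agent.H983R2.ONJ
open Pool.Agent.Y13.QM Pool.Agent.H970.RG

section contraction

variable {N : ℕ} {V : Type}

theorem cont_left (Y A P : MatN N V) : ∑ i, ∑ j, Y i j * (A * P) i j =
    ∑ i, ∑ k, A i k * (Y * P.transpose) i k := by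
  simp only [Matrix.mul_apply, Matrix.transpose_apply, Finset.mul_sum]
  refine Finset.sum_congr rfl fun i _ => ?_
  rw [Finset.sum_comm]
  refine Finset.sum_congr rfl fun k _ => Finset.sum_congr rfl fun j _ => ?_
  ring

theorem cont_right (Y A P : MatN N V) : ∑ i, ∑ j, Y i j * (P * A) i j =
    ∑ k, ∑ j, A k j * (P.transpose * Y) k j := by
  simp only [Matrix.mul_apply, Matrix.transpose_apply, Finset.mul_sum]
  have h : ∀ i, ∑ j, ∑ k, Y i j * (P i k * A k j) = ∑ k, ∑ j, Y i j * (P i k * A k j) :=
    fun i => Finset.sum_comm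
  simp only [h]
  rw [Finset.sum_comm]
  refine Finset.sum_congr rfl fun k _ => ?_
  rw [Finset.sum_comm]
  refine Finset.sum_congr rfl fun j _ => Finset.sum_congr rfl fun i _ => ?_
  ring

/-- contraction of a matrix with a commutator -/
theorem cont_comm (Y A P : MatN N V) (H : AlgN N V) :
    ∑ i, ∑ j, Y i j * (A * P - P * A) i j * H =
      ∑ i, ∑ j, A i j * ((Y * P.transpose - P.transpose * Y) i j * H) := by
  have h1 := cont_left Y A P
  have h2 := cont_right Y A P
  have e1 : ∑ i, ∑ j, Y i j * (A * P - P * A) i j * H =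
      (∑ i, ∑ j, Y i j * (A * P) i j - ∑ i, ∑ j, Y i j * (P * A) i j) * H := by
    rw [← Finset.sum_sub_distrib, Finset.sum_mul]
    refine Finset.sum_congr rfl fun i _ => ?_
    rw [← Finset.sum_sub_distrib, Finset.sum_mul]
    refine Finset.sum_congr rfl fun j _ => ?_
    rw [Matrix.sub_apply]
    ring
  have e2 : ∑ i, ∑ j, A i j * ((Y * P.transpose - P.transpose * Y) i j * H) =
      (∑ i, ∑ j, A i j * (Y * P.transpose) i j - ∑ i, ∑ j, A i j * (P.transpose * Y) i j) * H := by
    rw [← Finset.sum_sub_distrib, Finset.sum_mul]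
    refine Finset.sum_congr rfl fun i _ => ?_
    rw [← Finset.sum_sub_distrib, Finset.sum_mul]
    refine Finset.sum_congr rfl fun j _ => ?_
    rw [Matrix.sub_apply]
    ring
  rw [e1, e2, h1, h2]

end contraction

section good

variable {N L : ℕ} [NeZero L] {ι : Type} [Fintype ι] {G : Gr (Tor L) ι} {β : ℝ}
  {Λ : Finset (Tor L)} {W : WFunN N G β Λ} {J : Tor L → MatN N (Tor L)}
  {b : Tor L → Fin N → Fin N → DerN N (Tor L)} {ρ l B : ℝ}

/-- covariant matrices are orthogonal to the score of a rotation which is rigid near them -/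
theorem rigid_zero (h : GoodN W J b ρ l B) {u : Tor L → ℝ} {A : Set (Tor L)}
    {T : MatN N (Tor L)} (hT : CovM T) (hTA : ∀ i j, LocN A (T i j))
    (hu : ∀ y, u y ≠ 1 → ∀ x ∈ A, ρ < tnorm (x - y))
    {D : Set (Tor L)} {H : AlgN N (Tor L)} (hH : LocN D H)
    (huD : ∀ y, u y ≠ 0 → ∀ x ∈ D, ρ < tnorm (x - y))
    (huΛ : ∀ y, u y ≠ 0 → ∀ x, tnorm (x - y) ≤ ρ → x ∈ Λ) :
    W.E (∑ i, ∑ j, JM J u i j * (T i j * H)) = 0 := by
  have h1 : ∀ i j, W.E (JM J u i j * (T i j * H)) =
      W.E (H * RR (fun _ => 1) i j (T i j)) := by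
    intro i j
    rw [← h.ibpS huΛ i j, Derivation.leibniz, h.BM_kill hH huD i j, h.BM_rigid (hTA i j) hu i j,
      smul_zero, zero_add, smul_eq_mul]
  rw [map_sum]
  have h2 : ∀ i, W.E (∑ j, JM J u i j * (T i j * H)) =
      W.E (H * ∑ j, RR (fun _ => 1) i j (T i j)) := by
    intro i
    rw [map_sum, Finset.mul_sum, map_sum]
    exact Finset.sum_congr rfl fun j _ => h1 i j
  simp only [h2]
  rw [← map_sum, ← Finset.mul_sum, div_mat hT, mul_zero, map_zero]

/-- an isolated score is orthogonal to everything -/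
theorem far_zero (h : GoodN W J b ρ l B) {z : Tor L} (hz : ∀ x, tnorm (x - z) ≤ ρ → x ∈ Λ)
    {T : MatN N (Tor L)} {A D : Set (Tor L)} (hT : ∀ i j, LocN A (T i j))
    (hA : ∀ x ∈ A, ρ < tnorm (x - z)) {H : AlgN N (Tor L)}
    (hH : LocN D H) (hD : ∀ x ∈ D, ρ < tnorm (x - z)) :
    W.E (∑ i, ∑ j, J z i j * (T i j * H)) = 0 := by
  rw [map_sum]
  refine Finset.sum_eq_zero fun i _ => ?_
  rw [map_sum]
  refine Finset.sum_eq_zero fun j _ => ?_
  rw [← h.ibp z hz i j, Derivation.leibniz, h.loc z i j _ A (hT i j) hA, h.loc z i j _ D hH hD,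
    smul_zero, smul_zero, add_zero, map_zero]

end good

theorem orth : S_orth := by
  intro N hN L _ ι _ G β Λ W J b ρ l B r m q R' h hρ hr hq hm hρq Y hY hYs a f hf hΛ H hH
  have hnest := QM_nest J f (psi_symm m r)
  have hQ : ∀ i j, QM J (kap f (psi m r)) i j = ∑ z, f z •
      (JM J (fun x => psi m r x z) * J z - J z * JM J (fun x => psi m r x z)) i j := by
    intro i j
    rw [hnest, Matrix.sum_apply]
    rfl
  have h1 : ∀ i j, W.E (JM Y f i j * QM J (kap f (psi m r)) i j * H) =
      ∑ v, ∑ z, (f v * f z) *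
        W.E (Y v i j * (JM J (fun x => psi m r x z) * J z -
          J z * JM J (fun x => psi m r x z)) i j * H) := by
    intro i j
    rw [hQ, JM_apply, Finset.sum_mul, Finset.sum_mul, map_sum]
    refine Finset.sum_congr rfl fun v _ => ?_
    rw [Finset.mul_sum, Finset.sum_mul, map_sum]
    refine Finset.sum_congr rfl fun z _ => ?_
    rw [smul_mul_assoc, mul_smul_comm, smul_smul, smul_mul_assoc, map_smul, smul_eq_mul]
  simp only [h1]
  have h2 : ∀ v z, (f v * f z) * W.E (∑ i, ∑ j, Y v i j * (JM J (fun x => psi m r x z) * J z -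
          J z * JM J (fun x => psi m r x z)) i j * H) = 0 := by
    intro v z
    by_cases hz : f z = 0
    · rw [hz, mul_zero, zero_mul]
    have hza := hf z hz
    refine mul_eq_zero_of_right _ ?_
    set u : Tor L → ℝ := fun x => psi m r x z with hu
    have hu0 : ∀ y, u y ≠ 0 → tnorm (y - z) ≤ (m + 2) * r := fun y hy => psi_supp hr hy
    have hu1 : ∀ y, u y ≠ 1 → (m - 2) * r < tnorm (y - z) := by
      intro y hy
      by_contra hc
      push Not at hc
      exact hy (psi_one hr hc)
    have huΛ : ∀ y, u y ≠ 0 → ∀ x, tnorm (x - y) ≤ ρ → x ∈ Λ := by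
      intro y hy x hx
      refine hΛ x ?_
      have h2 := hu0 y hy
      have h3 := tri3 x y a
      have h4 := tri3 y z a
      linarith
    have huD : ∀ y, u y ≠ 0 → ∀ x ∈ {x | R' + (m + 2) * r + ρ < tnorm (x - a)},
        ρ < tnorm (x - y) := by
      intro y hy x hx
      simp only [Set.mem_ofPred_eq] at hx
      have h2 := hu0 y hy
      have h3 := tri3 x y a
      have h4 := tri3 y z a
      linarith
    have hmr : 0 ≤ (m - 2) * r := by linarith
    by_cases hvz : tnorm (v - z) + q + ρ ≤ (m - 2) * r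
    · rw [cont_comm]
      refine rigid_zero h (A := {x | tnorm (x - z) ≤ ρ ∨ tnorm (x - v) ≤ q})
        (covM_sub (covM_mul (hY v) (covM_transpose (h.cov z)))
          (covM_mul (covM_transpose (h.cov z)) (hY v))) (fun i j => ?_) (fun y hy x hx => ?_)
        hH huD huΛ
      · have e1 : ∀ i j, LocN {x | tnorm (x - z) ≤ ρ ∨ tnorm (x - v) ≤ q}
            ((J z).transpose i j) := by
          intro i j
          rw [Matrix.transpose_apply]
          exact ((h.sup z j i).mono fun x hx => Or.inl hx).loc
        have e2 : ∀ i j, LocN {x | tnorm (x - z) ≤ ρ ∨ tnorm (x - v) ≤ q} (Y v i j) :=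
          fun i j => ((hYs v i j).mono fun x hx => Or.inr hx).loc
        rw [Matrix.sub_apply]
        exact (LocN.matmul e2 e1 i j).sub (LocN.matmul e1 e2 i j)
      · have h2 := hu1 y hy
        simp only [Set.mem_ofPred_eq] at hx
        rcases hx with hx | hx
        · have h3 := tri3 y x z
          rw [tnorm_sub_comm y x] at h3
          linarith
        · have h3 := tri3 y x z
          have h4 := tri3 x v z
          rw [tnorm_sub_comm y x] at h3
          linarith
    · push Not at hvz
      have hzv : q + ρ < tnorm (v - z) := by linarith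
      have e0 : ∑ i, ∑ j, Y v i j * (JM J u * J z - J z * JM J u) i j * H =
          ∑ i, ∑ j, J z i j * ((-(Y v * (JM J u).transpose - (JM J u).transpose * Y v)) i j *
            H) := by
        have e3 := cont_comm (Y v) (J z) (JM J u) H
        have e4 : ∀ i j, Y v i j * (JM J u * J z - J z * JM J u) i j * H =
            -(Y v i j * (J z * JM J u - JM J u * J z) i j * H) := by
          intro i j
          rw [Matrix.sub_apply, Matrix.sub_apply]
          ring
        have e5 : ∀ i j, J z i j * ((-(Y v * (JM J u).transpose -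
            (JM J u).transpose * Y v)) i j * H) =
            -(J z i j * ((Y v * (JM J u).transpose - (JM J u).transpose * Y v) i j * H)) := by
          intro i j
          rw [Matrix.neg_apply]
          ring
        simp only [e4, e5, Finset.sum_neg_distrib]
        rw [e3]
      rw [e0]
      have e1 : ∀ i j, LocN {x | ρ < tnorm (x - z)} ((JM J u).transpose i j) := by
        intro i j
        rw [Matrix.transpose_apply, h.JM_sub_one]
        refine (h.supS (fun y hy x hx => ?_) j i).loc
        have h2 := hu1 y (fun hc => hy (by rw [hc, sub_self]))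
        simp only [Set.mem_ofPred_eq]
        have h3 := tri3 y x z
        rw [tnorm_sub_comm y x] at h3
        linarith
      have e2 : ∀ i j, LocN {x | ρ < tnorm (x - z)} (Y v i j) := by
        intro i j
        refine ((hYs v i j).mono fun x hx => ?_).loc
        simp only [Set.mem_ofPred_eq] at hx ⊢
        have h3 := tri3 v x z
        rw [tnorm_sub_comm v x] at h3
        linarith
      refine far_zero h (A := {x | ρ < tnorm (x - z)}) (fun x hx => hΛ x ?_) (fun i j => ?_)
        (fun x hx => hx) hH (fun x hx => ?_)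
      · have h3 := tri3 x z a
        have h5 : 0 ≤ (m + 2) * r := by nlinarith
        linarith
      · rw [Matrix.neg_apply, Matrix.sub_apply]
        exact ((LocN.matmul e2 e1 i j).sub (LocN.matmul e1 e2 i j)).neg
      · simp only [Set.mem_ofPred_eq] at hx
        have h3 := tri3 x z a
        have h5 : 0 ≤ (m + 2) * r := by nlinarith
        linarith
  have h3 : ∑ i, ∑ j, ∑ v, ∑ z, (f v * f z) *
        W.E (Y v i j * (JM J (fun x => psi m r x z) * J z -
          J z * JM J (fun x => psi m r x z)) i j * H) =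
      ∑ v, ∑ z, (f v * f z) * W.E (∑ i, ∑ j, Y v i j * (JM J (fun x => psi m r x z) * J z -
          J z * JM J (fun x => psi m r x z)) i j * H) := by
    simp only [map_sum, Finset.mul_sum]
    have s1 : ∀ (g : Fin N → Fin N → Tor L → Tor L → ℝ),
        ∑ i, ∑ j, ∑ v, ∑ z, g i j v z = ∑ v, ∑ z, ∑ i, ∑ j, g i j v z := by
      intro g
      calc ∑ i, ∑ j, ∑ v, ∑ z, g i j v z = ∑ i, ∑ v, ∑ j, ∑ z, g i j v z :=
            Finset.sum_congr rfl fun i _ => Finset.sum_comm
        _ = ∑ v, ∑ i, ∑ j, ∑ z, g i j v z := Finset.sum_comm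
        _ = ∑ v, ∑ i, ∑ z, ∑ j, g i j v z :=
            Finset.sum_congr rfl fun v _ => Finset.sum_congr rfl fun i _ => Finset.sum_comm
        _ = ∑ v, ∑ z, ∑ i, ∑ j, g i j v z :=
            Finset.sum_congr rfl fun v _ => Finset.sum_comm
    exact s1 _
  rw [h3]
  exact Finset.sum_eq_zero fun v _ => Finset.sum_eq_zero fun z _ => h2 v z

end Pool.Agent.H970.RN
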